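import Mathlib
import Pool.Agent.Scc961.Defs
import Pool.Agent.Scc961.Conn
import Pool.Agent.Scc961.Match

/-!
Disproof of the formula `scc(G) = (4/3) |E(G)| + T(G)` for 3-edge-connected cubic graphs.

The counterexample has 60 vertices and 90 edges. It is obtained from the Petersen graph by
replacing each of its five inner vertices by a triangle one vertex of which is replaced by the
Petersen graph minus a vertex. It has a cycle cover of length 122 = (4/3) 90 + 2 that uses one edge
three times, while at least three vertices have to be expanded into triangles to make it coverable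
by four perfect matchings.
-/

namespace Pool.Agent.Results.MP_961c17_co.Disproof

open Pool.Agent.Scc961 Pool.Agent.Scc961.MGraph

theorem G60_three_le_T : (3 : ℕ∞) ≤ G60.T := by
  apply le_sInf
  rintro n ⟨U, ⟨M, hM, hcov⟩, rfl⟩
  have h : 3 ≤ U.ncard := G60_lower U M hM hcov
  exact_mod_cast h

theorem G60_exists_cover : ∃ L : List (Set G60.E), G60.IsCycleCover L ∧
    G60.coverLength L = G60.scc := by
  have hne : {n : ℕ | ∃ L : List (Set G60.E), G60.IsCycleCover L ∧
      G60.coverLength L = n}.Nonempty := by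
    refine ⟨_, cyc.map toSet, ⟨?_, ?_⟩, rfl⟩
    · intro C hC
      obtain ⟨l, hl, rfl⟩ := List.mem_map.1 hC
      exact isCycle_of l (List.all_eq_true.1 cyc_ok l hl)
    · intro e
      obtain ⟨l, hl, hel⟩ := List.any_eq_true.1 (cyc_cover e)
      exact ⟨toSet l, List.mem_map.2 ⟨l, hl, rfl⟩, List.contains_iff_mem.1 hel⟩
  exact Nat.sInf_mem hne

/-- There is a 3-edge-connected cubic graph `G` whose shortest cycle cover is shorter than
`(4/3) |E(G)| + T(G)`. -/
theorem result : ∃ G : MGraph, G.IsCubic ∧ G.ThreeEdgeConnected ∧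
    (∃ L : List (Set G.E), G.IsCycleCover L ∧ G.coverLength L = G.scc) ∧
    3 * (G.scc : ℕ∞) < 4 * (Nat.card G.E : ℕ∞) + 3 * G.T := by
  refine ⟨G60, G60_cubic, G60_conn, G60_exists_cover, ?_⟩
  have h1 : (G60.scc : ℕ∞) ≤ 122 := by exact_mod_cast G60_scc_le
  have h2 : Nat.card G60.E = 90 := by
    change Nat.card (Fin 90) = 90
    simp
  have h3 := G60_three_le_T
  calc 3 * (G60.scc : ℕ∞) ≤ 3 * 122 := by gcongr
    _ < 4 * 90 + 3 * 3 := by norm_num
    _ ≤ 4 * (Nat.card G60.E : ℕ∞) + 3 * G60.T := by
      rw [h2]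
      gcongr
      norm_num

end Pool.Agent.Results.MP_961c17_co.Disproof
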